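import Pool.Agent.H.MP_3865e9_co.A

namespace Pool.Agent.Results.MP_620d87_co.NoSwitch

open Matrix

open Classical in
noncomputable def adj {n : ℕ} (r : Fin n → Fin n → Prop) : Matrix (Fin n) (Fin n) ℂ :=
  fun a b => if r a b then 1 else if r b a then -1 else 0

def PST {n : ℕ} (r : Fin n → Fin n → Prop) (a b : Fin n) : Prop :=
  ∃ (t : ℝ) (l : ℂ), ‖l‖ = 1 ∧
    NormedSpace.exp ((t : ℂ) • adj r) *ᵥ Pi.single a 1 = l • Pi.single b 1

def Switching {n : ℕ} (r : Fin n → Fin n → Prop) (M : Matrix (Fin n) (Fin n) ℂ) : Prop :=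
  (∃ (σ : Equiv.Perm (Fin n)) (d : Fin n → ℂ), (∀ i, d i = 1 ∨ d i = -1) ∧
    M = σ.permMatrix ℂ * diagonal d) ∧ Mᵀ * adj r * M = adj r

open Pool.Agent.H.MP_3865e9_co.A

theorem adj_eq : adj (fun u v => arc u v = true) = S := by
  funext u v
  simp only [adj, S, Z]
  split_ifs <;> simp

def deg (u : Fin 102) : ℕ := (Finset.univ.filter (Z u · ≠ 0)).card

def Near (v : Fin 102) : Prop := ∃ u, Z v u ≠ 0 ∧ deg u = 14

theorem n0 : Near 0 := ⟨24, by decide +kernel⟩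

theorem n1 : ¬ Near 1 := by
  unfold Near
  decide +kernel

theorem col {n : ℕ} (σ : Equiv.Perm (Fin n)) (d : Fin n → ℂ) (u v : Fin n) :
    (σ.permMatrix ℂ * diagonal d : Matrix _ _ ℂ) u v = if u = σ.symm v then d v else 0 := by
  rw [mul_diagonal]
  simp [Equiv.Perm.permMatrix, PEquiv.toMatrix, Equiv.toPEquiv, Equiv.eq_symm_apply]

theorem near (τ : Equiv.Perm (Fin 102)) (h : ∀ u v, Z (τ u) (τ v) ≠ 0 ↔ Z u v ≠ 0) (v : Fin 102) :
    Near (τ v) ↔ Near v := by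
  have hd (u : Fin 102) : deg u = deg (τ u) :=
    Finset.card_equiv τ fun x => by simp only [Finset.mem_filter, Finset.mem_univ, true_and, h]
  constructor
  · rintro ⟨u, h1, h2⟩
    obtain ⟨u, rfl⟩ := τ.surjective u
    exact ⟨u, (h _ _).1 h1, (hd u).trans h2⟩
  · rintro ⟨u, h1, h2⟩
    exact ⟨τ u, (h _ _).2 h1, (hd u).symm.trans h2⟩

theorem result : ∃ (n : ℕ) (r : Fin n → Fin n → Prop), (∀ a b, r a b → ¬ r b a) ∧
    ∃ T : Finset (Fin n), 3 ≤ T.card ∧ (∀ a ∈ T, ∀ b ∈ T, a ≠ b → PST r a b) ∧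
      ¬ ∃ M, Switching r M ∧ ∃ a ∈ T, ∀ c ∈ T, ∃ k : ℕ,
        M ^ k *ᵥ Pi.single a 1 = Pi.single c 1 ∨ M ^ k *ᵥ Pi.single a 1 = -Pi.single c 1 := by
  refine ⟨102, fun u v => arc u v = true, asym, Finset.univ.filter (·.1 < 6), by decide +kernel,
    fun a ha b hb _ => ?_, ?_⟩
  · obtain ⟨t, ht⟩ := all a b (Finset.mem_filter.1 ha).2 (Finset.mem_filter.1 hb).2
    exact ⟨t, 1, norm_one, by rw [adj_eq, one_smul, ht]⟩
  rintro ⟨M, ⟨⟨σ, d, hd, hM⟩, hA⟩, a, -, h⟩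
  rw [adj_eq] at hA
  have hc (u v) : M u v = if u = σ.symm v then d v else 0 := hM ▸ col σ d u v
  have d0 (i) : d i ≠ 0 := by rcases hd i with e | e <;> simp [e]
  have hZ (u v) : Z (σ.symm u) (σ.symm v) ≠ 0 ↔ Z u v ≠ 0 := by
    have := congrFun₂ hA u v
    simp only [mul_apply, transpose_apply, hc, ite_mul, mul_ite, zero_mul, mul_zero,
      Finset.sum_ite_eq', Finset.mem_univ, if_true, S] at this
    rw [← Int.cast_ne_zero (α := ℂ), ← Int.cast_ne_zero (α := ℂ) (n := Z u v), ← this]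
    simp [d0]
  have hk (k : ℕ) : ∃ (s : ℂ) (x : Fin 102), (Near x ↔ Near a) ∧
      M ^ k *ᵥ Pi.single a 1 = s • Pi.single x 1 := by
    induction k with
    | zero => exact ⟨1, a, Iff.rfl, by rw [pow_zero, one_mulVec, one_smul]⟩
    | succ k ih =>
      obtain ⟨s, x, h1, h2⟩ := ih
      refine ⟨s * d x, σ.symm x, (near _ hZ x).trans h1, ?_⟩
      rw [pow_succ', ← mulVec_mulVec, h2, mulVec_smul, mul_smul]
      congr 1
      funext u
      simp [hc, Pi.single_apply]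
  have key (c : Fin 102) (hc : c.1 < 6) : Near c ↔ Near a := by
    obtain ⟨k, e⟩ := h c (Finset.mem_filter.2 ⟨Finset.mem_univ _, hc⟩)
    obtain ⟨s, x, h1, h2⟩ := hk k
    rw [h2] at e
    by_cases hx : c = x
    · exact hx ▸ h1
    · rcases e with e | e <;> simpa [hx] using congrFun e c
  exact n1 ((key 1 (by decide)).2 ((key 0 (by decide)).1 n0))

end Pool.Agent.Results.MP_620d87_co.NoSwitch
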